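import Mathlib
import Pool.Agent.X116.Hyp
import Pool.Agent.X116.SignCore

/-!
# All zeros of the coefficients of `1 / (Q(t) + z t^r)` are positive
-/

open Polynomial Finset

namespace Pool.Agent.Results.MP_60133c_an.PositiveZeros

/-- The embedding of the real numbers in the field `ℂ(z)` of rational functions. -/
noncomputable def emb : ℝ →+* RatFunc ℂ := (RatFunc.C (K := ℂ)).comp Complex.ofRealHom

/-- The formal power series `Q(t) + z t^r` in `t`, with coefficients in `ℂ(z)`. -/
noncomputable def denomSeries (Q : ℝ[X]) (r : ℕ) : PowerSeries (RatFunc ℂ) :=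
  ((Q.map emb : (RatFunc ℂ)[X]) : PowerSeries (RatFunc ℂ))
    + PowerSeries.C (RatFunc.X : RatFunc ℂ) * PowerSeries.X ^ r

/-- `P_m(z)`: the coefficient of `t^m` in the formal power series `1 / (Q(t) + z t^r)`, as an element
of `ℂ(z)`. -/
noncomputable def Pm (Q : ℝ[X]) (r m : ℕ) : RatFunc ℂ :=
  PowerSeries.coeff m (denomSeries Q r)⁻¹

/-- The coefficients of `Q(t) + z t^r` as polynomials in `z`. -/
noncomputable def F (Q : ℝ[X]) (r i : ℕ) : ℂ[X] :=
  C (Q.coeff i : ℂ) + if i = r then X else 0

/-- `F_i B^(i-1)`, where `B = F_0` -/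
noncomputable def U (Q : ℝ[X]) (r i : ℕ) : ℂ[X] :=
  if i = 0 then 1 else F Q r i * F Q r 0 ^ (i - 1)

/-- The numerators. -/
noncomputable def An (Q : ℝ[X]) (r n : ℕ) : ℂ[X] :=
  PowerSeries.coeff n (PowerSeries.invOfUnit (PowerSeries.mk (U Q r)) 1)

lemma An_rec (Q : ℝ[X]) (r n : ℕ) :
    ∑ x ∈ antidiagonal n, U Q r x.1 * An Q r x.2 = if n = 0 then 1 else 0 := by
  have h : PowerSeries.mk (U Q r) * PowerSeries.invOfUnit (PowerSeries.mk (U Q r)) 1 = 1 := by
    apply PowerSeries.mul_invOfUnit
    rw [← PowerSeries.coeff_zero_eq_constantCoeff_apply, PowerSeries.coeff_mk]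
    simp [U]
  have h1 := congrArg (PowerSeries.coeff n) h
  rw [PowerSeries.coeff_mul, PowerSeries.coeff_one] at h1
  rw [← h1]
  refine Finset.sum_congr rfl fun x _ => ?_
  rw [PowerSeries.coeff_mk, An]

lemma F_mul (Q : ℝ[X]) (r i : ℕ) : F Q r i * F Q r 0 ^ i = F Q r 0 * U Q r i := by
  unfold U
  by_cases h : i = 0
  · subst h; simp
  · rw [if_neg h]
    have : F Q r 0 ^ i = F Q r 0 * F Q r 0 ^ (i - 1) := by
      rw [← pow_succ']; congr 1; omega
    rw [this]
    ring

lemma coeff_denomSeries (Q : ℝ[X]) (r i : ℕ) :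
    PowerSeries.coeff i (denomSeries Q r) = algebraMap ℂ[X] (RatFunc ℂ) (F Q r i) := by
  unfold denomSeries F emb
  rw [map_add, Polynomial.coeff_coe, coeff_map, PowerSeries.coeff_C_mul, PowerSeries.coeff_X_pow,
    map_add, RatFunc.algebraMap_C]
  congr 1
  by_cases h : i = r
  · rw [if_pos h, if_pos h, mul_one, RatFunc.algebraMap_X]
  · rw [if_neg h, if_neg h, mul_zero, map_zero]

lemma Pm_eq {Q : ℝ[X]} {r : ℕ} (hB : F Q r 0 ≠ 0) (m : ℕ) :
    Pm Q r m = algebraMap ℂ[X] (RatFunc ℂ) (An Q r m)
      / algebraMap ℂ[X] (RatFunc ℂ) (F Q r 0 ^ (m + 1)) := by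
  have hB' : algebraMap ℂ[X] (RatFunc ℂ) (F Q r 0) ≠ 0 :=
    (map_ne_zero_iff _ (RatFunc.algebraMap_injective ℂ)).mpr hB
  set p : PowerSeries (RatFunc ℂ) := PowerSeries.mk fun n => algebraMap ℂ[X] (RatFunc ℂ) (An Q r n)
      / algebraMap ℂ[X] (RatFunc ℂ) (F Q r 0 ^ (n + 1)) with hp
  have hmul : denomSeries Q r * p = 1 := by
    ext n
    rw [PowerSeries.coeff_mul, PowerSeries.coeff_one]
    have h1 : ∀ x ∈ antidiagonal n, PowerSeries.coeff x.1 (denomSeries Q r) * PowerSeries.coeff x.2 p
        = algebraMap ℂ[X] (RatFunc ℂ) (U Q r x.1 * An Q r x.2)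
          / algebraMap ℂ[X] (RatFunc ℂ) (F Q r 0) ^ n := by
      intro x hx
      have hx' : x.1 + x.2 = n := HasAntidiagonal.mem_antidiagonal.mp hx
      rw [coeff_denomSeries, hp, PowerSeries.coeff_mk, map_pow, map_mul]
      have h2 := congrArg (algebraMap ℂ[X] (RatFunc ℂ)) (F_mul Q r x.1)
      rw [map_mul, map_mul, map_pow] at h2
      have h3 : algebraMap ℂ[X] (RatFunc ℂ) (F Q r 0) ^ n
          = algebraMap ℂ[X] (RatFunc ℂ) (F Q r 0) ^ x.1
            * algebraMap ℂ[X] (RatFunc ℂ) (F Q r 0) ^ x.2 := by rw [← pow_add, hx']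
      rw [h3, pow_succ]
      field_simp
      linear_combination (algebraMap ℂ[X] (RatFunc ℂ) (An Q r x.2)) * h2
    rw [Finset.sum_congr rfl h1, ← Finset.sum_div, ← map_sum, An_rec]
    by_cases hn : n = 0
    · subst hn; simp
    · rw [if_neg hn, map_zero, zero_div, if_neg hn]
  have hc : PowerSeries.constantCoeff (denomSeries Q r) ≠ 0 := by
    rw [← PowerSeries.coeff_zero_eq_constantCoeff_apply, coeff_denomSeries]
    exact hB'
  have hinv : (denomSeries Q r)⁻¹ = p := by
    calc (denomSeries Q r)⁻¹ = (denomSeries Q r)⁻¹ * (denomSeries Q r * p) := by rw [hmul, mul_one]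
      _ = ((denomSeries Q r)⁻¹ * denomSeries Q r) * p := by ring
      _ = p := by rw [PowerSeries.inv_mul_cancel _ hc, one_mul]
  unfold Pm
  rw [hinv, hp, PowerSeries.coeff_mk]

/-- Let `Q` be a nonconstant real polynomial all of whose complex zeros are positive real numbers,
with `Q(0) > 0`. Then for all `r` and `m` all the zeros of `P_m` lie in `(0, ∞)`. -/
theorem result (Q : ℝ[X]) (hdeg : 0 < Q.natDegree)
    (hzeros : ∀ w : ℂ, aeval w Q = 0 → w.im = 0 ∧ 0 < w.re) (hQ0 : 0 < Q.eval 0) (r m : ℕ) (z : ℂ)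
    (hz : (Pm Q r m).num.eval z = 0) : z.im = 0 ∧ 0 < z.re := by
  obtain ⟨s, hs⟩ := Pool.Agent.X116.Hyp.exists_roots (p := Q)
    (Or.inr fun w hw => (hzeros w hw).1)
  have hQne : Q ≠ 0 := by
    rintro rfl
    simp at hdeg
  have hlc : Q.leadingCoeff ≠ 0 := leadingCoeff_ne_zero.mpr hQne
  have hpos : ∀ a ∈ s, 0 < a := by
    intro a ha
    have h1 : aeval (a : ℂ) Q = 0 := by
      have h2 : Q.eval a = 0 := by
        rw [hs, eval_mul, eval_multiset_prod]
        have : (0 : ℝ) ∈ (s.map fun a : ℝ => X - C a).map (eval a) := by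
          rw [Multiset.map_map]
          exact Multiset.mem_map.mpr ⟨a, ha, by simp⟩
        rw [Multiset.prod_eq_zero this, mul_zero]
      have h3 : aeval (a : ℂ) Q = ((Q.eval a : ℝ) : ℂ) := by
        have := Polynomial.aeval_algebraMap_apply (A := ℝ) ℂ a Q
        simpa using this
      rw [h3, h2, Complex.ofReal_zero]
    simpa using (hzeros _ h1).2
  have hcard : s.card = Q.natDegree := by
    conv_rhs => rw [hs]
    rw [natDegree_C_mul hlc, natDegree_multiset_prod_X_sub_C_eq_card]
  have hq0 : 0 < Q.coeff 0 := by rwa [coeff_zero_eq_eval_zero]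
  -- `B ≠ 0`
  have hBne : F Q r 0 ≠ 0 := by
    intro h0
    have h1 : (F Q r 0).coeff 0 = (Q.coeff 0 : ℂ) := by
      unfold F
      rw [coeff_add, coeff_C_zero]
      split_ifs <;> simp
    rw [h0, coeff_zero] at h1
    exact hq0.ne' (by exact_mod_cast h1.symm)
  have hAz : (An Q r m).eval z = 0 := by
    have hdvd : (Pm Q r m).num ∣ An Q r m := by
      rw [Pm_eq hBne]
      exact RatFunc.num_div_dvd _ (pow_ne_zero _ hBne)
    obtain ⟨D, hD⟩ := hdvd
    rw [hD, eval_mul, hz, zero_mul]
  have hrecz : ∀ n, ∑ x ∈ antidiagonal n, (U Q r x.1).eval z * (An Q r x.2).eval z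
      = if n = 0 then 1 else 0 := by
    intro n
    have := congrArg (fun p => eval z p) (An_rec Q r n)
    simp only [eval_finsetSum, eval_mul] at this
    rw [this]
    by_cases hn : n = 0
    · rw [if_pos hn, if_pos hn, eval_one]
    · rw [if_neg hn, if_neg hn, eval_zero]
  by_cases hBz : (F Q r 0).eval z = 0
  · -- pole
    exfalso
    have hr : r = 0 := by
      by_contra hr
      unfold F at hBz
      rw [if_neg (Ne.symm hr), add_zero, eval_C] at hBz
      exact hq0.ne' (by exact_mod_cast hBz)
    subst hr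
    have hU : ∀ i, (U Q 0 i).eval z = if i = 0 then 1 else if i = 1 then (Q.coeff 1 : ℂ) else 0 := by
      intro i
      unfold U
      by_cases h0 : i = 0
      · rw [if_pos h0, if_pos h0, eval_one]
      · rw [if_neg h0, if_neg h0, eval_mul, eval_pow, hBz]
        by_cases h1 : i = 1
        · rw [if_pos h1, h1, Nat.sub_self, pow_zero, mul_one]
          unfold F
          rw [if_neg one_ne_zero, add_zero, eval_C]
        · rw [if_neg h1, zero_pow (by omega), mul_zero]
    have hA : ∀ n, (An Q 0 n).eval z = (-(Q.coeff 1 : ℂ)) ^ n := by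
      intro n
      induction n with
      | zero =>
        have := hrecz 0
        rw [Finset.Nat.antidiagonal_zero, Finset.sum_singleton, hU, if_pos rfl, if_pos rfl,
          one_mul] at this
        rw [this, pow_zero]
      | succ n ih =>
        have h1 := hrecz (n + 1)
        rw [if_neg (Nat.succ_ne_zero n), Finset.Nat.sum_antidiagonal_succ, hU, if_pos rfl,
          one_mul] at h1
        have h2 : ∑ x ∈ antidiagonal n, (U Q 0 (x.1 + 1)).eval z * (An Q 0 x.2).eval z
            = (Q.coeff 1 : ℂ) * (An Q 0 n).eval z := by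
          rw [Finset.sum_eq_single (0, n)]
          · rw [hU]; simp
          · rintro ⟨a, b⟩ hx hne
            have hx' : a + b = n := HasAntidiagonal.mem_antidiagonal.mp hx
            have ha : a ≠ 0 := by
              rintro rfl
              apply hne
              ext <;> simp
              omega
            rw [hU, if_neg (by simp), if_neg (by simpa using ha), zero_mul]
          · intro hx
            exact absurd (HasAntidiagonal.mem_antidiagonal.mpr (by simp)) hx
        rw [h2, ih] at h1
        rw [pow_succ]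
        linear_combination h1
    rw [hA] at hAz
    have hq1 : Q.coeff 1 ≠ 0 :=
      Pool.Agent.X116.SignCore.coeff_one_ne hlc hs hpos (by omega) hq0
    rcases Nat.eq_zero_or_pos m with h0 | h0
    · rw [h0, pow_zero] at hAz
      exact one_ne_zero hAz
    · have h1 := (pow_eq_zero_iff h0.ne').mp hAz
      rw [neg_eq_zero] at h1
      exact hq1 (by exact_mod_cast h1)
  · have hD : Pool.Agent.X116.SignCore.Data Q s Q.leadingCoeff r m z
        (fun n => (An Q r n).eval z / (F Q r 0).eval z ^ (n + 1)) := by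
      refine ⟨hpos, by omega, hs, hq0, fun n => ?_, ?_⟩
      · have h1 : ∀ x ∈ antidiagonal n, ((Q.coeff x.1 : ℂ) + if x.1 = r then z else 0)
            * ((An Q r x.2).eval z / (F Q r 0).eval z ^ (x.2 + 1))
            = (U Q r x.1).eval z * (An Q r x.2).eval z / (F Q r 0).eval z ^ n := by
          intro x hx
          have hx' : x.1 + x.2 = n := HasAntidiagonal.mem_antidiagonal.mp hx
          have h2 := congrArg (fun p => eval z p) (F_mul Q r x.1)
          simp only [eval_mul, eval_pow] at h2
          have h3 : (F Q r 0).eval z ^ n = (F Q r 0).eval z ^ x.1 * (F Q r 0).eval z ^ x.2 := by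
            rw [← pow_add, hx']
          have h4 : (Q.coeff x.1 : ℂ) + (if x.1 = r then z else 0) = (F Q r x.1).eval z := by
            unfold F
            rw [eval_add, eval_C]
            by_cases h : x.1 = r
            · rw [if_pos h, if_pos h, eval_X]
            · rw [if_neg h, if_neg h, eval_zero]
          rw [h3, h4, pow_succ]
          field_simp
          linear_combination ((An Q r x.2).eval z) * h2
        rw [Finset.sum_congr rfl h1, ← Finset.sum_div, hrecz]
        by_cases hn : n = 0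
        · subst hn; simp
        · rw [if_neg hn, zero_div]
      · change (An Q r m).eval z / (F Q r 0).eval z ^ (m + 1) = 0
        rw [hAz, zero_div]
    exact hD.main

end Pool.Agent.Results.MP_60133c_an.PositiveZeros
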